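import Pool.Agent.X155.EndN3

/-!
# MP_0c7c8f_al (Q1): the monoid `End(ℕ, <)` has no finest Polish semigroup topology

For a weight `w`, a nonincreasing function `ℕ → (0, 1]` with `w(2a + 1) ≥ w(a) / 2` and
`w(a) ≥ 1 / (a + 1)`, let `s(f)` be the sum of the `w(a)` over the `a` which are not in the range of
the strictly increasing map `f`. The pointwise topology together with the sets `s⁻¹(U)`, `U` open in
`[0, ∞]`, generates a Polish topology (the graph of a lower semicontinuous function is a Gδ set), and
composition is continuous: `s(f g) + q(f, g) = s(f) + s(g)` with lower semicontinuous `q`, and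
`s(f g) < ∞` implies `s(f), s(g) < ∞`. Given countably many sets of maps `B_n`, each with an element
`g_n` whose range has an infinite complement, there is a weight, tending to `0`, for which all the
`s(g_n)` are infinite. The open set `s < ∞` contains maps whose range has an infinite complement, but
none of the `B_n`. So no topology with a countable base contains all these topologies.
-/

set_option autoImplicit false

open Topology

namespace Pool.Agent.Results.MP_0c7c8f_al.NoFinestPolishTopology

/-- The monoid `End(ℕ, <)`: the strictly increasing maps from `ℕ` to `ℕ`. -/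
abbrev EndN : Type := {f : ℕ → ℕ // StrictMono f}

/-- The multiplication: composition of maps. -/
def comp (f g : EndN) : EndN := ⟨f.1 ∘ g.1, f.2.comp g.2⟩

/-- `T` is a Polish semigroup topology on `End(ℕ, <)`: it is separable and completely metrizable,
and the multiplication is continuous for the product topology. -/
def IsPolishSemigroupTopology (T : TopologicalSpace EndN) : Prop :=
  @PolishSpace EndN T ∧
    @Continuous (EndN × EndN) EndN (@instTopologicalSpaceProd EndN EndN T T) T
      (fun p => comp p.1 p.2)

/-- `End(ℕ, <)` has no finest Polish semigroup topology. In fact no second countable topology on it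
contains all the Polish semigroup topologies. -/
theorem result :
    (¬ ∃ T : TopologicalSpace EndN, IsPolishSemigroupTopology T ∧
      ∀ T' : TopologicalSpace EndN, IsPolishSemigroupTopology T' →
        ∀ U : Set EndN, IsOpen[T'] U → IsOpen[T] U) ∧
    (∀ T : TopologicalSpace EndN, @SecondCountableTopology EndN T →
      ∃ T' : TopologicalSpace EndN, IsPolishSemigroupTopology T' ∧
        ∃ U : Set EndN, IsOpen[T'] U ∧ ¬ IsOpen[T] U) := by
  have key : ∀ T : TopologicalSpace EndN, @SecondCountableTopology EndN T →
      ∃ T' : TopologicalSpace EndN, IsPolishSemigroupTopology T' ∧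
        ∃ U : Set EndN, IsOpen[T'] U ∧ ¬ IsOpen[T] U := by
    intro T hT
    obtain ⟨T', h1, h2⟩ := X155.EndN.no_finest T hT
    refine ⟨T', h1, ?_⟩
    by_contra hcon
    push Not at hcon
    exact h2 hcon
  refine ⟨?_, key⟩
  rintro ⟨T, hT, hmax⟩
  obtain ⟨T', h1, U, h2, h3⟩ := key T hT.1.toSecondCountableTopology
  exact h3 (hmax T' h1 U h2)

end Pool.Agent.Results.MP_0c7c8f_al.NoFinestPolishTopology
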